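import Pool.Agent.Helper79.LW.Lab

/-!
Choice of parameters: the number of separable polynomials of degree `n` with Mahler measure at most
`n ^ (1 / 2 - δ)`.
-/

open Finset Filter

namespace Pool.Agent.Helper79.LC

lemma quot_le {x : ℝ} (h0 : 0 ≤ x) (h1 : x ≤ 1 / 2) : (1 + x) / (1 - x) ≤ Real.exp (3 * x) := by
  have h2 : (1 - x)⁻¹ ≤ Real.exp (2 * x) := by
    rw [inv_le_iff_one_le_mul₀ (by linarith)]
    have e1 := Real.add_one_le_exp (2 * x)
    have : 0 ≤ 1 - x := by linarith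
    calc (1 : ℝ) ≤ (2 * x + 1) * (1 - x) := by nlinarith
      _ ≤ _ := by gcongr
  have e1 := Real.add_one_le_exp x
  have e2 : 0 ≤ (1 - x)⁻¹ := inv_nonneg.mpr (by linarith)
  calc (1 + x) / (1 - x) = (1 + x) * (1 - x)⁻¹ := div_eq_mul_inv _ _
    _ ≤ Real.exp x * Real.exp (2 * x) := by
        gcongr; linarith
    _ = _ := by rw [← Real.exp_add]; ring_nf

lemma inv_pow_le {x : ℝ} (h0 : 0 ≤ x) (h1 : x ≤ 1 / 2) (k : ℕ) :
    ((1 - x) ^ k)⁻¹ ≤ Real.exp (2 * x * k) := by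
  have h2 : (1 - x)⁻¹ ≤ Real.exp (2 * x) := by
    rw [inv_le_iff_one_le_mul₀ (by linarith)]
    have e1 := Real.add_one_le_exp (2 * x)
    have : 0 ≤ 1 - x := by linarith
    calc (1 : ℝ) ≤ (2 * x + 1) * (1 - x) := by nlinarith
      _ ≤ _ := by gcongr
  rw [← inv_pow]
  calc ((1 - x)⁻¹) ^ k ≤ Real.exp (2 * x) ^ k := by
        have : 0 ≤ (1 - x)⁻¹ := inv_nonneg.mpr (by linarith)
        gcongr
    _ = _ := by rw [← Real.exp_nat_mul]; ring_nf

/-- the exponent for one leading coefficient -/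
noncomputable def expo (n : ℕ) (δ y : ℝ) : ℝ :=
  6 * n / y + (245760 / δ ^ 2 * n * Real.log y / y + 9 * n / y ^ 3) +
    (6144000 / δ ^ 3 * n * Real.log y / y ^ 2 + 225 * n / (δ * y)) +
    (3 + 4 * Real.log (n + 1) * (Real.exp 4 * (n : ℝ) ^ (1 - 9 * δ / 8)))

theorem core {n : ℕ} {ℓ : ℤ} {δ y : ℝ} (hn : 3 ≤ n) (hδ : 0 < δ) (hδ4 : δ ≤ 1 / 4) (hy : 2 ≤ y)
    (hyL : y ^ 4 = Real.log n) (hs : δ * Real.log n / 8 ≤ n / 2) (hK : 2 ≤ n / y ^ 5)
    (hlK : 25 / δ ≤ n) (htail : 16 ≤ δ * Real.log n * n)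
    (F : Finset (Polynomial ℤ)) (hF : ∀ f ∈ F, Sq f ∧ f.natDegree = n ∧ f.leadingCoeff = ℓ ∧
      MM f ≤ (n : ℝ) ^ (1 / 2 - δ)) :
    (#F : ℝ) ≤ Real.exp (expo n δ y) := by
  set L : ℝ := Real.log n with hL
  have hn0 : (0 : ℝ) < n := by positivity
  have hn3 : (3 : ℝ) ≤ n := by exact_mod_cast hn
  have hy0 : 0 < y := by linarith
  have hL16 : 16 ≤ L := by
    rw [← hyL]
    calc (16 : ℝ) = 2 ^ 4 := by norm_num
      _ ≤ y ^ 4 := by gcongr
  have hL0 : 0 < L := by linarith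
  set K₀ : ℕ := ⌊(n : ℝ) / y ^ 5⌋₊ with hK₀
  set K₁ : ℕ := ⌊(n : ℝ) / y ^ 2⌋₊ with hK₁
  set K₂ : ℕ := ⌈24 * (n : ℝ) / δ⌉₊ with hK₂
  have hy2 : 1 ≤ y ^ 2 := one_le_pow₀ (by linarith)
  have hK0a : (K₀ : ℝ) ≤ n / y ^ 5 := Nat.floor_le (by positivity)
  have hK0b : n / (2 * y ^ 5) ≤ (K₀ : ℝ) := by
    have h1 := Nat.lt_floor_add_one ((n : ℝ) / y ^ 5)
    rw [← hK₀] at h1
    have h2 : (n : ℝ) / (2 * y ^ 5) = n / y ^ 5 / 2 := by field_simp
    rw [h2]; linarith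
  have hK01 : 1 ≤ K₀ := by
    apply Nat.le_floor
    push_cast; linarith
  have h25 : (n : ℝ) / y ^ 5 ≤ n / y ^ 2 := by
    apply div_le_div_of_nonneg_left hn0.le (by positivity)
    exact pow_le_pow_right₀ (by linarith) (by norm_num)
  have hK1a : (K₁ : ℝ) ≤ n / y ^ 2 := Nat.floor_le (by positivity)
  have hK1b : n / (2 * y ^ 2) ≤ (K₁ : ℝ) := by
    have h1 := Nat.lt_floor_add_one ((n : ℝ) / y ^ 2)
    rw [← hK₁] at h1
    have h2 : (n : ℝ) / (2 * y ^ 2) = n / y ^ 2 / 2 := by field_simp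
    rw [h2]; linarith
  have h01 : K₀ ≤ K₁ := Nat.floor_le_floor h25
  have hK2b : 24 * (n : ℝ) / δ ≤ K₂ := Nat.le_ceil _
  have hnK2 : (n : ℝ) ≤ 24 * (n : ℝ) / δ := by
    rw [le_div_iff₀ hδ]; nlinarith
  have h12 : K₁ ≤ K₂ := by
    have h1 : (K₁ : ℝ) ≤ K₂ := by
      calc (K₁ : ℝ) ≤ n / y ^ 2 := hK1a
        _ ≤ n := div_le_self hn0.le hy2
        _ ≤ _ := hnK2.trans hK2b
    exact_mod_cast h1
  have hK2a : (K₂ : ℝ) ≤ 25 * n / δ := by
    have h1 := Nat.ceil_lt_add_one (show 0 ≤ 24 * (n : ℝ) / δ by positivity)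
    rw [← hK₂] at h1
    have h2 : 25 * (n : ℝ) / δ = 24 * n / δ + n / δ := by ring
    have h3 : 1 ≤ (n : ℝ) / δ := by rw [le_div_iff₀ hδ]; linarith
    linarith
  have hnK2' : n ≤ K₂ := by
    have : (n : ℝ) ≤ K₂ := hnK2.trans hK2b
    exact_mod_cast this
  set s : ℝ := δ * L / 8 with hsdef
  have hs0 : 0 < s := by positivity
  have hsn : s / n ≤ 1 / 2 := by
    rw [div_le_iff₀ hn0]; linarith
  have hsn0 : 0 < s / n := by positivity
  set r : ℝ := 1 - s / n with hr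
  have hr0 : 0 < r := by linarith
  have hr1 : r < 1 := by linarith
  set Λ : ℝ := δ * L / 32 with hΛ
  have hΛ0 : 0 < Λ := by positivity
  have hμ0 : 0 < Real.log y := Real.log_pos (by linarith)
  set T : ℝ := (n : ℝ) ^ (1 / 2 - δ) with hT
  have hT1 : 1 ≤ T := Real.one_le_rpow (by linarith) (by linarith)
  have hlogT : Real.log T ≤ L / 2 := by
    rw [hT, Real.log_rpow hn0]
    nlinarith
  have hA : ∀ f ∈ F, AA (rt f).val K₂ ≤ 10 * n * L := by
    intro f hf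
    obtain ⟨e1, e2, e3, e4⟩ := hF f hf
    refine (AA_K e1 (by omega) e2 hnK2').trans ?_
    have h1 : Real.log K₂ ≤ 2 * L := by
      have h2 : (K₂ : ℝ) ≤ n * n := by
        refine hK2a.trans ?_
        calc 25 * (n : ℝ) / δ = 25 / δ * n := by ring
          _ ≤ n * n := by gcongr
      have h3 := Real.log_le_log (by exact_mod_cast (show 0 < K₂ by omega)) h2
      rw [Real.log_mul hn0.ne' hn0.ne'] at h3
      linarith
    have h2 : Real.log (MM f) ≤ L / 2 := by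
      refine (Real.log_le_log ?_ e4).trans hlogT
      linarith [one_le_MM' e1.ne_zero]
    have h3 : Real.log K₂ + 4 * Real.log (MM f) + 2 ≤ 5 * L := by linarith
    calc 2 * (n : ℝ) * (Real.log K₂ + 4 * Real.log (MM f) + 2) ≤ 2 * n * (5 * L) := by gcongr
      _ = _ := by ring
  have hexpL : Real.exp L = n := by rw [hL, Real.exp_log hn0]
  have hB3 : 2 * n * (r ^ K₂ / (1 - r)) ≤ 1 := by
    have h1 : r ^ K₂ ≤ Real.exp (-(3 * L)) := by
      calc r ^ K₂ ≤ Real.exp (-(s / n)) ^ K₂ := by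
            have := Real.add_one_le_exp (-(s / n))
            gcongr
            rw [hr]; linarith
        _ = Real.exp (K₂ * -(s / n)) := by rw [← Real.exp_nat_mul]
        _ ≤ _ := by
            apply Real.exp_le_exp.mpr
            have h2 : 24 * (n : ℝ) / δ * (s / n) = 3 * L := by
              rw [hsdef]; field_simp; ring
            have h3 : 24 * (n : ℝ) / δ * (s / n) ≤ K₂ * (s / n) := by gcongr
            linarith
    have h2 : Real.exp (-(3 * L)) = ((n : ℝ) ^ 3)⁻¹ := by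
      rw [Real.exp_neg, show 3 * L = ((3 : ℕ) : ℝ) * L by norm_num, Real.exp_nat_mul, hexpL]
    rw [h2] at h1
    have h3 : 1 - r = s / n := by rw [hr]; ring
    rw [h3]
    calc 2 * n * (r ^ K₂ / (s / n)) ≤ 2 * n * (((n : ℝ) ^ 3)⁻¹ / (s / n)) := by gcongr
      _ = 16 / (δ * L * n) := by rw [hsdef]; field_simp; ring
      _ ≤ 1 := by rw [div_le_one (by positivity)]; exact htail
  have hmain := sep_bound (n := n) (K₀ := K₀) (K₁ := K₁) (K₂ := K₂) (ℓ := ℓ) (T := T) (r := r)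
    (Λ := Λ) (μ := Real.log y) (θ := 1 / ((n : ℝ) + 1)) (A := 10 * n * L) (B₃ := 1) (by omega) hr0 hr1
    hΛ0 hμ0 (by positivity) (by rw [div_lt_one (by positivity)]; linarith) hK01 h01 h12 F
    (fun f hf => by
      obtain ⟨e1, e2, e3, e4⟩ := hF f hf
      exact ⟨e1, e2, e3, e4, hA f hf⟩) hB3
  refine hmain.trans ?_
  have hemu : Real.exp (-Real.log y) = 1 / y := by rw [Real.exp_neg, Real.exp_log hy0, one_div]
  have hexpo : Real.exp (expo n δ y) = Real.exp (6 * n / y) *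
      (Real.exp (245760 / δ ^ 2 * n * Real.log y / y) * Real.exp (9 * n / y ^ 3)) *
      (Real.exp (6144000 / δ ^ 3 * n * Real.log y / y ^ 2) * Real.exp (225 * n / (δ * y))) *
      Real.exp (3 + 4 * Real.log (n + 1) * (Real.exp 4 * (n : ℝ) ^ (1 - 9 * δ / 8))) := by
    simp only [← Real.exp_add]
    rw [expo]
  rw [hemu, hexpo]
  have hyi : 1 / y ≤ 1 / 2 := by
    rw [div_le_div_iff₀ hy0 (by norm_num)]; linarith
  have hρ := quot_le (x := 1 / y) (by positivity) hyi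
  have hρ0 : 0 ≤ (1 + 1 / y) / (1 - 1 / y) := div_nonneg (by positivity) (by linarith)
  have hρk : ∀ K : ℕ, ((1 + 1 / y) / (1 - 1 / y)) ^ (3 * K) ≤ Real.exp (9 * K / y) := by
    intro K
    calc ((1 + 1 / y) / (1 - 1 / y)) ^ (3 * K) ≤ Real.exp (3 * (1 / y)) ^ (3 * K) := by gcongr
      _ = Real.exp (9 * K / y) := by
          rw [← Real.exp_nat_mul]; congr 1; push_cast; ring
  -- the four factors
  have g1 : (2 * (n : ℝ) ^ 2 + 1) ^ (2 * K₀) ≤ Real.exp (6 * n / y) := by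
    have h1 : 2 * (n : ℝ) ^ 2 + 1 ≤ Real.exp (3 * L) := by
      rw [show 3 * L = ((3 : ℕ) : ℝ) * L by norm_num, Real.exp_nat_mul, hexpL]
      nlinarith [mul_nonneg (sub_nonneg.mpr hn3) (sq_nonneg (n : ℝ))]
    calc (2 * (n : ℝ) ^ 2 + 1) ^ (2 * K₀) ≤ Real.exp (3 * L) ^ (2 * K₀) := by gcongr
      _ = Real.exp (6 * L * K₀) := by
          rw [← Real.exp_nat_mul]; congr 1; push_cast; ring
      _ ≤ _ := by
          apply Real.exp_le_exp.mpr
          calc 6 * L * K₀ ≤ 6 * L * (n / y ^ 5) := by gcongr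
            _ = 6 * n / y := by rw [← hyL]; field_simp
  have q1 : Real.log y * (4 * (3 * K₁) * (10 * n * L / K₀) / Λ ^ 2) ≤
      245760 / δ ^ 2 * n * Real.log y / y := by
    have h0 : (0 : ℝ) < K₀ := by exact_mod_cast hK01
    have h2 : (0 : ℝ) < n / (2 * y ^ 5) := by positivity
    calc Real.log y * (4 * (3 * K₁) * (10 * n * L / K₀) / Λ ^ 2)
        ≤ Real.log y * (4 * (3 * (n / y ^ 2)) * (10 * n * L / (n / (2 * y ^ 5))) / Λ ^ 2) := by
          gcongr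
      _ = 245760 / δ ^ 2 * n * Real.log y / y := by
          rw [hΛ, ← hyL]; field_simp; norm_num
  have q2 : Real.log y * (4 * (3 * K₂) * (10 * n * L / K₁) / Λ ^ 2) ≤
      6144000 / δ ^ 3 * n * Real.log y / y ^ 2 := by
    have h0 : (0 : ℝ) < K₁ := by exact_mod_cast (show 0 < K₁ by omega)
    have h2 : (0 : ℝ) < n / (2 * y ^ 2) := by positivity
    calc Real.log y * (4 * (3 * K₂) * (10 * n * L / K₁) / Λ ^ 2)
        ≤ Real.log y * (4 * (3 * (25 * n / δ)) * (10 * n * L / (n / (2 * y ^ 2))) / Λ ^ 2) := by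
          gcongr
      _ = 6144000 / δ ^ 3 * n * Real.log y / y ^ 2 := by
          rw [hΛ, ← hyL]; field_simp; norm_num
  have g2 : ((1 + 1 / y) / (1 - 1 / y)) ^ (3 * K₁) ≤ Real.exp (9 * n / y ^ 3) := by
    refine (hρk K₁).trans (Real.exp_le_exp.mpr ?_)
    calc 9 * (K₁ : ℝ) / y ≤ 9 * (n / y ^ 2) / y := by gcongr
      _ = _ := by field_simp
  have g3 : ((1 + 1 / y) / (1 - 1 / y)) ^ (3 * K₂) ≤ Real.exp (225 * n / (δ * y)) := by
    refine (hρk K₂).trans (Real.exp_le_exp.mpr ?_)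
    calc 9 * (K₂ : ℝ) / y ≤ 9 * (25 * n / δ) / y := by gcongr
      _ = _ := by field_simp; norm_num
  have q3 : n * Real.log ((1 + 1 / ((n : ℝ) + 1)) / (1 - 1 / ((n : ℝ) + 1))) ≤ 3 := by
    have h1 : 1 / ((n : ℝ) + 1) ≤ 1 / 2 := by
      rw [div_le_div_iff₀ (by positivity) (by norm_num)]; linarith
    have h2 := quot_le (x := 1 / ((n : ℝ) + 1)) (by positivity) h1
    have h3 : 0 < (1 + 1 / ((n : ℝ) + 1)) / (1 - 1 / ((n : ℝ) + 1)) :=
      div_pos (by positivity) (by linarith)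
    have h4 : Real.log ((1 + 1 / ((n : ℝ) + 1)) / (1 - 1 / ((n : ℝ) + 1))) ≤
        3 * (1 / ((n : ℝ) + 1)) := by
      rwa [Real.log_le_iff_le_exp h3]
    calc n * Real.log ((1 + 1 / ((n : ℝ) + 1)) / (1 - 1 / ((n : ℝ) + 1)))
        ≤ n * (3 * (1 / ((n : ℝ) + 1))) := by gcongr
      _ = 3 * (n / (n + 1)) := by ring
      _ ≤ 3 * 1 := by
          gcongr
          rw [div_le_one (by positivity)]; linarith
      _ = 3 := by norm_num
  have q4 : -Real.log (1 / ((n : ℝ) + 1)) * (4 * (T ^ 2 * ((r ^ (2 * n))⁻¹ *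
          Real.exp (2 * K₀ / n + 3 * Λ + 3 * Λ + 1) ^ 2))) ≤
      4 * Real.log (n + 1) * (Real.exp 4 * (n : ℝ) ^ (1 - 9 * δ / 8)) := by
    have h1 : -Real.log (1 / ((n : ℝ) + 1)) = Real.log (n + 1) := by
      rw [one_div, Real.log_inv, neg_neg]
    have hl0 : 0 ≤ Real.log ((n : ℝ) + 1) := Real.log_nonneg (by linarith)
    have h2 : T ^ 2 = Real.exp (L * (1 - 2 * δ)) := by
      rw [hT, Real.rpow_def_of_pos hn0, ← Real.exp_nat_mul]
      congr 1; push_cast; ring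
    have h3 : (r ^ (2 * n))⁻¹ ≤ Real.exp (δ * L / 2) := by
      refine (inv_pow_le hsn0.le hsn (2 * n)).trans (Real.exp_le_exp.mpr (le_of_eq ?_))
      rw [hsdef]; push_cast; field_simp; norm_num
    have h4 : Real.exp (2 * K₀ / n + 3 * Λ + 3 * Λ + 1) ^ 2 ≤ Real.exp (4 + 3 * δ * L / 8) := by
      rw [← Real.exp_nat_mul]
      apply Real.exp_le_exp.mpr
      have h5 : 2 * (K₀ : ℝ) / n ≤ 1 := by
        rw [div_le_one hn0]
        have h6 : (n : ℝ) / y ^ 5 ≤ n / 2 := by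
          apply div_le_div_of_nonneg_left hn0.le (by norm_num)
          calc (2 : ℝ) ≤ y := hy
            _ ≤ y ^ 5 := le_self_pow₀ (by linarith) (by norm_num)
        linarith
      rw [hΛ]
      push_cast
      linarith
    have h5 : (n : ℝ) ^ (1 - 9 * δ / 8) = Real.exp (L * (1 - 9 * δ / 8)) := by
      rw [Real.rpow_def_of_pos hn0]
    rw [h1, h2, h5]
    have h6 : 0 ≤ (r ^ (2 * n))⁻¹ := by positivity
    calc Real.log (n + 1) * (4 * (Real.exp (L * (1 - 2 * δ)) * ((r ^ (2 * n))⁻¹ *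
          Real.exp (2 * K₀ / n + 3 * Λ + 3 * Λ + 1) ^ 2)))
        ≤ Real.log (n + 1) * (4 * (Real.exp (L * (1 - 2 * δ)) * (Real.exp (δ * L / 2) *
          Real.exp (4 + 3 * δ * L / 8)))) := by gcongr
      _ = 4 * Real.log (n + 1) * (Real.exp 4 * Real.exp (L * (1 - 9 * δ / 8))) := by
          rw [← Real.exp_add, ← Real.exp_add, ← Real.exp_add]
          have : L * (1 - 2 * δ) + (δ * L / 2 + (4 + 3 * δ * L / 8)) =
              4 + L * (1 - 9 * δ / 8) := by ring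
          rw [this]; ring
  have g4 := Real.exp_le_exp.mpr (add_le_add q3 q4)
  have g5 := Real.exp_le_exp.mpr q1
  have g6 := Real.exp_le_exp.mpr q2
  refine mul_le_mul (mul_le_mul (mul_le_mul g1 (mul_le_mul g5 g2 ?_ ?_) ?_ ?_)
    (mul_le_mul g6 g3 ?_ ?_) ?_ ?_) g4 ?_ ?_ <;> positivity

end Pool.Agent.Helper79.LC
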