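import Pool.Agent.Helper79.LG.Kraft
import Pool.Agent.Helper79.LD.Circ
import Pool.Agent.Helper79.LD.Kern
import Pool.Agent.Helper79.LE.Finq

/-!
Counting polynomials whose reflected root products are comparable on a circle.
-/

open Finset PowerSeries

namespace Pool.Agent.Helper79.LC

/-- inverse of the product `HH` -/
noncomputable def GI (m : Multiset ℂ) : ℂ⟦X⟧ := (m.map geo).prod

lemma GI_cons (a : ℂ) (m : Multiset ℂ) : GI (a ::ₘ m) = geo a * GI m := by simp [GI]

lemma HH_GI (m : Multiset ℂ) : HH m * GI m = 1 := by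
  induction m using Multiset.induction_on with
  | empty => simp [HH, GI]
  | cons a m ih =>
    rw [HH_cons, GI_cons]
    linear_combination (HH m * GI m) * lin_mul_geo a + ih

lemma coeff_zero_GI (m : Multiset ℂ) : coeff 0 (GI m) = 1 := by
  have h := congrArg (constantCoeff (R := ℂ)) (HH_GI m)
  have h2 := constantCoeff_HH m
  rw [coeff_zero_eq_constantCoeff_apply] at h2
  rw [map_mul, h2, one_mul, map_one] at h
  rw [coeff_zero_eq_constantCoeff_apply, h]

lemma Smb_HH (m : Multiset ℂ) : Smb (HH m) := by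
  induction m using Multiset.induction_on with
  | empty => simpa [HH] using Smb_one
  | cons a m ih => rw [HH_cons]; exact (Smb_lin a).mul ih

lemma ev_HH (m : Multiset ℂ) (t : ℝ) : ev (HH m) t = (m.map fun a => 1 - a * cz t).prod := by
  induction m using Multiset.induction_on with
  | empty => simpa [HH] using ev_one t
  | cons a m ih =>
    rw [HH_cons, ev_mul (Smb_lin a) (Smb_HH m), ev_lin, ih, Multiset.map_cons, Multiset.prod_cons]

lemma Smb_GI {m : Multiset ℂ} (h : ∀ a ∈ m, ‖a‖ < 1) : Smb (GI m) := by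
  induction m using Multiset.induction_on with
  | empty => simpa [GI] using Smb_one
  | cons a m ih =>
    rw [GI_cons]
    exact (Smb_geo (h a (by simp))).mul (ih fun b hb => h b (by simp [hb]))

lemma ev_HH_GI {m : Multiset ℂ} (h : ∀ a ∈ m, ‖a‖ < 1) (t : ℝ) :
    ev (HH m) t * ev (GI m) t = 1 := by
  rw [← ev_mul (Smb_HH m) (Smb_GI h), HH_GI, ev_one]

lemma GI_sc (r : ℝ) (m : Multiset ℂ) : GI (sc r m) = PowerSeries.rescale (r : ℂ) (GI m) := by
  have h1 := congrArg (PowerSeries.rescale (r : ℂ)) (HH_GI m)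
  rw [map_mul, map_one, ← HH_sc] at h1
  have h2 := HH_GI (sc r m)
  calc GI (sc r m) = GI (sc r m) * (HH (sc r m) * PowerSeries.rescale (r : ℂ) (GI m)) := by
        rw [h1, mul_one]
    _ = (HH (sc r m) * GI (sc r m)) * PowerSeries.rescale (r : ℂ) (GI m) := by ring
    _ = _ := by rw [h2, one_mul]

lemma NN_rescale {r : ℝ} (hr0 : 0 < r) (hr1 : r ≤ 1) (k : ℕ) (G : ℂ⟦X⟧) :
    r ^ (2 * k) * NN k G ≤ NN k (PowerSeries.rescale (r : ℂ) G) := by
  rw [NN, NN, mul_sum]
  refine sum_le_sum fun i hi => ?_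
  rw [mem_range] at hi
  rw [coeff_rescale, norm_mul, norm_pow, Complex.norm_real, Real.norm_of_nonneg hr0.le, mul_pow,
    ← pow_mul]
  have : r ^ (2 * k) ≤ r ^ (i * 2) := pow_le_pow_of_le_one hr0.le hr1 (by omega)
  gcongr

/-- The truncated norm of a quotient. -/
theorem ratio_NN {r E : ℝ} (hr0 : 0 < r) (hr1 : r < 1) {m m' : Multiset ℂ}
    (hm' : ∀ a ∈ m', ‖a‖ ≤ 1)
    (h : ∀ t, ‖((sc r m).map fun a => 1 - a * cz t).prod‖ ≤
      E * ‖((sc r m').map fun a => 1 - a * cz t).prod‖) (k : ℕ) :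
    r ^ (2 * k) * NN k (HH m * GI m') ≤ E ^ 2 := by
  have hs : ∀ a ∈ sc r m', ‖a‖ < 1 := by
    intro a ha
    obtain ⟨b, hb, rfl⟩ := Multiset.mem_map.mp ha
    rw [norm_mul, Complex.norm_real, Real.norm_of_nonneg hr0.le]
    have := hm' b hb
    nlinarith [norm_nonneg b]
  have hS : Smb (HH (sc r m) * GI (sc r m')) := (Smb_HH _).mul (Smb_GI hs)
  have h1 : PowerSeries.rescale (r : ℂ) (HH m * GI m') = HH (sc r m) * GI (sc r m') := by
    rw [map_mul, HH_sc, GI_sc]
  refine (NN_rescale hr0 hr1.le k _).trans ?_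
  rw [h1]
  have h2 := parseval hS k
  have h3 : ∀ t, ‖ev (HH (sc r m) * GI (sc r m')) t‖ ≤ E := by
    intro t
    rw [ev_mul (Smb_HH _) (Smb_GI hs), norm_mul]
    have h4 := h t
    rw [← ev_HH, ← ev_HH] at h4
    have h5 := congrArg norm (ev_HH_GI hs t)
    rw [norm_mul, norm_one] at h5
    calc ‖ev (HH (sc r m)) t‖ * ‖ev (GI (sc r m')) t‖
        ≤ (E * ‖ev (HH (sc r m')) t‖) * ‖ev (GI (sc r m')) t‖ := by gcongr
      _ = E * (‖ev (HH (sc r m')) t‖ * ‖ev (GI (sc r m')) t‖) := by ring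
      _ = E := by rw [h5, mul_one]
  have h4 : ∫ t in (0 : ℝ)..2 * Real.pi, ‖ev (HH (sc r m) * GI (sc r m')) t‖ ^ 2 ≤
      ∫ _t in (0 : ℝ)..2 * Real.pi, E ^ 2 := by
    apply intervalIntegral.integral_mono_on (by positivity)
    · apply Continuous.intervalIntegrable
      have := continuous_ev hS
      fun_prop
    · exact intervalIntegrable_const
    · intro t _
      have := h3 t
      gcongr
  rw [intervalIntegral.integral_const, smul_eq_mul, sub_zero] at h4
  have h5 : 0 < 2 * Real.pi := by positivity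
  have h6 := h2.trans h4
  exact le_of_mul_le_mul_left h6 h5

/-- the predictor of the next coefficient -/
noncomputable def pred (G : ℂ⟦X⟧) (b : ℕ → ℤ) (k : ℕ) : ℝ :=
  -(∑ i ∈ Icc 1 k, coeff i G * (b (k - i) : ℂ)).re

lemma round_dev {z : ℤ} {x : ℝ} : |((z - round x : ℤ) : ℝ)| ≤ 4 * ((z : ℝ) - x) ^ 2 := by
  push_cast
  rcases lt_or_ge |(z : ℝ) - x| (1 / 2) with h | h
  · have h1 : round x = z := by
      rw [round_eq, Int.floor_eq_iff]
      rw [abs_lt] at h
      constructor <;> linarith [h.1, h.2]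
    rw [h1, sub_self, abs_zero]
    positivity
  · have h1 : |(z : ℝ) - round x| ≤ |(z : ℝ) - x| + 1 / 2 := by
      have h2 := abs_sub_round x
      have h3 : (z : ℝ) - round x = (z - x) + (x - round x) := by ring
      rw [h3]
      exact (abs_add_le _ _).trans (by linarith)
    have h2 : ((z : ℝ) - x) ^ 2 = |(z : ℝ) - x| ^ 2 := (sq_abs _).symm
    rw [h2]
    nlinarith

/-- Few polynomials have comparable reflected root products on the circle of radius `r`. -/
theorem class_ratio {n : ℕ} {ℓ : ℤ} {T r E θ : ℝ} (hr0 : 0 < r) (hr1 : r < 1)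
    (hθ0 : 0 < θ) (hθ1 : θ < 1)
    (F : Finset (Polynomial ℤ)) (hF : ∀ f ∈ F, Sq f ∧ f.natDegree = n ∧ f.leadingCoeff = ℓ ∧
      MM f ≤ T)
    (h : ∀ f ∈ F, ∀ g ∈ F, ∀ t,
      ‖((sc r ((rt f).val.map refl)).map fun a => 1 - a * cz t).prod‖ ≤
      E * ‖((sc r ((rt g).val.map refl)).map fun a => 1 - a * cz t).prod‖) :
    (#F : ℝ) ≤ Real.exp (n * Real.log ((1 + θ) / (1 - θ)) +
      -Real.log θ * (4 * (T ^ 2 * ((r ^ (2 * n))⁻¹ * E ^ 2)))) := by
  classical
  rcases F.eq_empty_or_nonempty with he | ⟨f₀, hf₀⟩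
  · rw [he]; simp [Real.exp_nonneg]
  set G : ℂ⟦X⟧ := GI ((rt f₀).val.map refl) with hG
  have hG0 : coeff 0 G = 1 := coeff_zero_GI _
  have hθl : 0 ≤ -Real.log θ := by
    have := Real.log_nonpos hθ0.le hθ1.le
    linarith
  have hrn : 0 < r ^ (2 * n) := by positivity
  -- the main estimate
  have hmain : ∀ f ∈ F, ∑ k ∈ Ioc 0 n, |((ac n f k - round (pred G (ac n f) k) : ℤ) : ℝ)| ≤
      4 * (T ^ 2 * ((r ^ (2 * n))⁻¹ * E ^ 2)) := by
    intro f hf
    obtain ⟨h1, h2, h3, h4⟩ := hF f hf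
    set m : Multiset ℂ := (rt f).val with hm
    have e1 := ratio_NN hr0 hr1 (E := E) (m := m.map refl) (m' := (rt f₀).val.map refl) (by
      intro a ha
      obtain ⟨b, _, rfl⟩ := Multiset.mem_map.mp ha
      exact refl_norm_le b) (h f hf f₀ hf₀) n
    have e2 : NN n (HH m * G) ≤ mm (out m) ^ 2 * ((r ^ (2 * n))⁻¹ * E ^ 2) := by
      rw [HH_eq m, mul_assoc]
      refine (NN_BQ n _ (out_gt m) _).trans ?_
      gcongr
      rw [le_inv_mul_iff₀ hrn]
      exact e1
    have e3 : lc f ^ 2 * NN n (HH m * G) ≤ T ^ 2 * ((r ^ (2 * n))⁻¹ * E ^ 2) := by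
      have e4 : lc f * mm (out m) ≤ T := by
        rw [mm_out_val, ← h1.MM_eq]; exact h4
      have e5 : 0 ≤ lc f * mm (out m) := by
        have := one_le_lc h1.ne_zero
        have e6 := mm_pos (out m) (out_gt m)
        positivity
      have e6 : 0 ≤ (r ^ (2 * n))⁻¹ * E ^ 2 := by positivity
      calc lc f ^ 2 * NN n (HH m * G) ≤
            lc f ^ 2 * (mm (out m) ^ 2 * ((r ^ (2 * n))⁻¹ * E ^ 2)) := by gcongr
        _ = (lc f * mm (out m)) ^ 2 * ((r ^ (2 * n))⁻¹ * E ^ 2) := by ring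
        _ ≤ _ := by gcongr
    have e7 : ∀ k ∈ Ioc 0 n, ((ac n f k : ℝ) - pred G (ac n f) k) ^ 2 ≤
        lc f ^ 2 * ‖coeff k (HH m * G)‖ ^ 2 := by
      intro k hk
      rw [mem_Ioc] at hk
      have e8 : (f.leadingCoeff : ℂ) * coeff k (HH m * G) =
          (ac n f k : ℂ) + ∑ i ∈ Icc 1 k, coeff i G * (ac n f (k - i) : ℂ) := by
        rw [mul_comm (HH m) G, coeff_mul, Finset.Nat.sum_antidiagonal_eq_sum_range_succ
          (fun i j => coeff i G * coeff j (HH m)), sum_range_succ', hG0, mul_add, mul_sum,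
          range_eq_Ico, sum_Ico_add' (fun i => (f.leadingCoeff : ℂ) *
            (coeff i G * coeff (k - i) (HH m))) 0 k 1, add_comm]
        have e9 : ∀ j ≤ n, (f.leadingCoeff : ℂ) * coeff j (HH m) = (ac n f j : ℂ) := by
          intro j hj
          rw [h1.coeff_HH (by omega), h2]; rfl
        congr 1
        · rw [one_mul, Nat.sub_zero, e9 k hk.2]
        · apply sum_congr
          · ext i; simp only [mem_Ico, mem_Icc]; omega
          · intro i _
            rw [← e9 (k - i) (by omega)]; ring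
      have e9 : (ac n f k : ℝ) - pred G (ac n f) k =
          ((f.leadingCoeff : ℂ) * coeff k (HH m * G)).re := by
        rw [e8, Complex.add_re, pred, Complex.intCast_re]; ring
      rw [e9, ← sq_abs, ← norm_mapC_lc, mapC_lc, ← mul_pow, ← norm_mul]
      have := Complex.abs_re_le_norm ((f.leadingCoeff : ℂ) * coeff k (HH m * G))
      gcongr
    calc ∑ k ∈ Ioc 0 n, |((ac n f k - round (pred G (ac n f) k) : ℤ) : ℝ)|
        ≤ ∑ k ∈ Ioc 0 n, 4 * (lc f ^ 2 * ‖coeff k (HH m * G)‖ ^ 2) := by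
          refine sum_le_sum fun k hk => ?_
          refine round_dev.trans ?_
          have := e7 k hk
          linarith
      _ = 4 * (lc f ^ 2 * ∑ k ∈ Ioc 0 n, ‖coeff k (HH m * G)‖ ^ 2) := by
          rw [mul_sum, mul_sum]
      _ ≤ 4 * (lc f ^ 2 * NN n (HH m * G)) := by
          rw [NN]
          gcongr
          intro k hk
          rw [mem_Ioc] at hk
          rw [mem_range]; omega
      _ ≤ _ := by linarith
  apply leaves (a := ac n) (m := fun f k => round (pred G (ac n f) k)) (n := n)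
    (lam := fun _ => Real.log ((1 + θ) / (1 - θ))) (mu := fun _ => -Real.log θ)
  · intro f hf g hg hfg
    obtain ⟨_, h2, h3, _⟩ := hF f hf
    obtain ⟨_, h2', h3', _⟩ := hF g hg
    exact ac_injq (h3.trans h3'.symm) h2 h2' hfg
  · intro f hf k hk1 hkn g hg
    obtain ⟨hgF, hgj⟩ := mem_node.mp hg
    have e0 : ∀ f ∈ F, ac n f 0 = ℓ := by
      intro f hf
      obtain ⟨_, h2, h3, _⟩ := hF f hf
      rw [ac, Nat.sub_zero, ← h2, ← h3]; rfl
    have e1 : ∀ j < k, ac n g j = ac n f j := by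
      intro j hj
      rcases Nat.eq_zero_or_pos j with h0 | h0
      · rw [h0, e0 g hgF, e0 f hf]
      · exact hgj j h0 hj
    have e2 : pred G (ac n g) k = pred G (ac n f) k := by
      rw [pred, pred]
      congr 2
      refine sum_congr rfl fun i hi => ?_
      rw [mem_Icc] at hi
      rw [e1 (k - i) (by omega)]
    simp only [e2]
  · intro k _ _ S
    exact geo_exp hθ0 hθ1 S
  · rw [← nsmul_eq_mul, ← sum_const]
    refine sum_le_sum fun f hf => ?_
    rw [sum_add_distrib, sum_const, Nat.card_Ioc, Nat.sub_zero, nsmul_eq_mul, ← mul_sum]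
    have := hmain f hf
    gcongr

end Pool.Agent.Helper79.LC
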