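import Pool.Agent.Helper79.LE.Finq

/-!
Energies at high frequencies, and the logarithm of the product over the reflected zeros.
-/

open Finset

namespace Pool.Agent.Helper79.LC

/-- The energy up to a frequency `K ≥ n`. -/
lemma AA_K {f : Polynomial ℤ} (h : Sq f) {n K : ℕ} (hn : 1 ≤ n) (hfn : f.natDegree = n)
    (hK : n ≤ K) : AA (rt f).val K ≤ 2 * n * (Real.log K + 4 * Real.log (MM f) + 2) := by
  have hn0 : (0 : ℝ) < n := by positivity
  have hK1 : 1 ≤ K := hn.trans hK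
  have hK0 : (0 : ℝ) < K := by exact_mod_cast hK1
  have hK1' : (1 : ℝ) ≤ K := by exact_mod_cast hK1
  have hnK : (n : ℝ) ≤ K := by exact_mod_cast hK
  set S := rt f with hS
  have hSc : #S = n := by rw [hS, h.card_rt, hfn]
  have hx1 : (1 : ℝ) / (2 * K) ≤ 1 / 2 := by
    rw [div_le_div_iff₀ (by positivity) (by norm_num)]; linarith
  have hx : (0 : ℝ) < 1 / (2 * K) := by positivity
  set r : ℝ := 1 - 1 / (2 * K) with hr
  have hr0 : 0 < r := by rw [hr]; linarith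
  have hr1 : r < 1 := by rw [hr]; linarith
  have hrn : 1 / 2 ≤ r ^ K := by
    apply pow_ge K (by linarith)
    apply le_of_eq; field_simp
  have hlc := one_le_lc h.ne_zero
  have hlc0 : 0 < lc f := by linarith
  have h1 := AA_le_EE hr0 hr1 S K hrn le_rfl
  have h2 := sums_EE hr0 hr1 S K
  have hdisc : (lc f ^ (2 * f.natDegree))⁻¹ ≤ ∏ a ∈ rt f, ∏ b ∈ (rt f).erase a, ‖a - b‖ := by
    rw [inv_le_iff_one_le_mul₀ (by positivity), mul_comm]
    exact h.disc_ge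
  have h3 := EE_self' hr0 hr1 (S := S) (R := (lc f ^ (2 * f.natDegree))⁻¹) (by positivity) hdisc
  have hLM : LM S ≤ Real.log (MM f) := by
    rw [LM_le_log]
    apply Real.log_le_log _ h.mm_le
    rw [mm_out_val]
    linarith [one_le_prod_max (rt f)]
  rw [hSc, hfn] at h3
  have h4 : 1 - r = 1 / (2 * K) := by rw [hr]; ring
  have h5 : Real.log (1 / (2 * K)) = - (Real.log 2 + Real.log K) := by
    rw [one_div, Real.log_inv, Real.log_mul (by norm_num) hK0.ne']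
  have h6 : (n : ℝ) * n * Real.log (2 / (1 + r)) ≤ n / 2 := by
    have := log_r hr0 hr1
    rw [h4] at this
    calc (n : ℝ) * n * Real.log (2 / (1 + r)) ≤ n * K * (1 / (2 * K)) := by
          gcongr
          apply Real.log_nonneg
          rw [le_div_iff₀ (by linarith)]; linarith
      _ = n / 2 := by field_simp
  have h7 : Real.log 2 < 0.7 := lt_trans Real.log_two_lt_d9 (by norm_num)
  have hlog : Real.log (lc f) ≤ Real.log (MM f) := Real.log_le_log hlc0 (lc_le_MM f)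
  have h8 : - Real.log ((lc f ^ (2 * n))⁻¹) ≤ 2 * n * Real.log (MM f) := by
    rw [Real.log_inv, Real.log_pow, neg_neg]
    push_cast
    gcongr
  have h9 : 2 * (n : ℝ) * LM S ≤ 2 * n * Real.log (MM f) := by gcongr
  rw [h4, h5] at h3
  nlinarith

/-- the coefficients of the logarithm -/
noncomputable def xx (r : ℝ) (S : Finset ℂ) (j : ℕ) : ℂ := ((r ^ j / j : ℝ) : ℂ) * ww S.val j

lemma norm_ww_le (S : Finset ℂ) {j : ℕ} (hj : j ≠ 0) : ‖ww S.val j‖ ≤ #S := by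
  rw [ww_val S hj]
  refine (norm_sum_le _ _).trans ?_
  rw [← nsmul_one (#S), ← sum_const]
  refine sum_le_sum fun a _ => ?_
  rw [norm_pow]
  exact pow_le_one₀ (norm_nonneg _) (refl_norm_le a)

lemma norm_xx {r : ℝ} (hr0 : 0 ≤ r) (S : Finset ℂ) (j : ℕ) :
    ‖xx r S j‖ = r ^ j / j * ‖ww S.val j‖ := by
  rw [xx, norm_mul, Complex.norm_real, Real.norm_of_nonneg (by positivity)]

lemma norm_xx_le {r : ℝ} (hr0 : 0 ≤ r) (S : Finset ℂ) (j : ℕ) :
    ‖xx r S j‖ ≤ r ^ j * #S := by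
  rcases Nat.eq_zero_or_pos j with h | h
  · subst h; simp [xx]
  · rw [norm_xx hr0]
    have h1 := norm_ww_le S (show j ≠ 0 by omega)
    have h2 : r ^ j / j ≤ r ^ j := div_le_self (by positivity) (by exact_mod_cast h)
    gcongr

/-- product over the reflected zeros -/
noncomputable def PP (r : ℝ) (S : Finset ℂ) (z : ℂ) : ℂ := ∏ a ∈ S, (1 - r * refl a * z)

lemma PP_eq (r : ℝ) (S : Finset ℂ) (t : ℝ) :
    ((sc r (S.val.map refl)).map fun a => 1 - a * cz t).prod = PP r S (cz t) := by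
  rw [sc, Multiset.map_map, Multiset.map_map]
  rfl

lemma log_PP {r : ℝ} (hr0 : 0 < r) (hr1 : r < 1) (S : Finset ℂ) {z : ℂ} (hz : ‖z‖ = 1) :
    HasSum (fun j : ℕ => (xx r S j * z ^ j).re) (- Real.log ‖PP r S z‖) ∧ PP r S z ≠ 0 := by
  have h0 : ∀ a ∈ S, ‖(r : ℂ) * refl a * z‖ < 1 := by
    intro a _
    rw [norm_mul, norm_mul, hz, mul_one, Complex.norm_real, Real.norm_of_nonneg hr0.le]
    have := refl_norm_le a
    nlinarith
  have hne : ∀ a ∈ S, (1 - (r : ℂ) * refl a * z) ≠ 0 := by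
    intro a ha h
    have h1 := h0 a ha
    have h2 : (r : ℂ) * refl a * z = 1 := (sub_eq_zero.mp h).symm
    rw [h2, norm_one] at h1
    exact lt_irrefl _ h1
  have h1 : ∀ a ∈ S, HasSum (fun k : ℕ => (((r : ℂ) * refl a * z) ^ k / k).re)
      (- Real.log ‖1 - (r : ℂ) * refl a * z‖) := by
    intro a ha
    have h3 := Complex.hasSum_re (Complex.hasSum_taylorSeries_neg_log (h0 a ha))
    rwa [Complex.neg_re, Complex.log_re] at h3
  refine ⟨?_, ?_⟩
  · have h4 := hasSum_sum h1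
    have h5 : ∑ a ∈ S, - Real.log ‖1 - (r : ℂ) * refl a * z‖ = - Real.log ‖PP r S z‖ := by
      rw [PP, norm_prod, Real.log_prod, sum_neg_distrib]
      intro a ha
      exact norm_ne_zero_iff.mpr (hne a ha)
    rw [h5] at h4
    refine h4.congr_fun ?_ |> fun h => h
    intro k
    rcases Nat.eq_zero_or_pos k with h | h
    · subst h; simp [xx]
    · rw [xx, ww_val S (by omega), mul_sum, sum_mul, Complex.re_sum]
      refine sum_congr rfl fun a _ => ?_
      congr 1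
      push_cast; ring
  · rw [PP, prod_ne_zero_iff]
    exact hne

/-- the coefficients above `K` -/
noncomputable def cb (r : ℝ) (K : ℕ) (S : Finset ℂ) (j : ℕ) : ℂ := if K < j then xx r S j else 0

/-- Two products are comparable when the coefficients of their logarithms are close. -/
theorem PP_close {r : ℝ} (hr0 : 0 < r) (hr1 : r < 1) {S S' : Finset ℂ} {n K₀ K₁ K₂ : ℕ}
    (hS : #S ≤ n) (hS' : #S' ≤ n) (h01 : K₀ ≤ K₁) (h12 : K₁ ≤ K₂) {B₀ B₁ B₂ B₃ : ℝ}
    (h0 : ∑ j ∈ Icc 1 K₀, ‖xx r S j - xx r S' j‖ ≤ B₀) {z : ℂ} (hz : ‖z‖ = 1)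
    (h1 : |(∑ j ∈ Icc 1 K₁, (cb r K₀ S j - cb r K₀ S' j) * z ^ j).re| ≤ B₁)
    (h2 : |(∑ j ∈ Icc 1 K₂, (cb r K₁ S j - cb r K₁ S' j) * z ^ j).re| ≤ B₂)
    (h3 : 2 * n * (r ^ K₂ / (1 - r)) ≤ B₃) :
    ‖PP r S z‖ ≤ Real.exp (B₀ + B₁ + B₂ + B₃) * ‖PP r S' z‖ := by
  obtain ⟨a1, a2⟩ := log_PP hr0 hr1 S hz
  obtain ⟨b1, b2⟩ := log_PP hr0 hr1 S' hz
  have hn1 : (#S : ℝ) ≤ n := by exact_mod_cast hS
  have hn2 : (#S' : ℝ) ≤ n := by exact_mod_cast hS'
  set u : ℕ → ℂ := fun j => xx r S j - xx r S' j with hu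
  have hsum : HasSum (fun j => (u j * z ^ j).re) (- Real.log ‖PP r S z‖ - - Real.log ‖PP r S' z‖) := by
    refine (a1.sub b1).congr_fun ?_ |> fun h => h
    intro j
    rw [hu, sub_mul, Complex.sub_re]
  have hnu : ∀ j, ‖u j‖ ≤ 2 * n * r ^ j := by
    intro j
    have c1 := norm_xx_le hr0.le S j
    have c2 := norm_xx_le hr0.le S' j
    have c3 : 0 ≤ r ^ j := by positivity
    calc ‖u j‖ ≤ ‖xx r S j‖ + ‖xx r S' j‖ := norm_sub_le _ _
      _ ≤ r ^ j * #S + r ^ j * #S' := add_le_add c1 c2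
      _ ≤ r ^ j * n + r ^ j * n := by gcongr
      _ = _ := by ring
  have hre : ∀ j, |(u j * z ^ j).re| ≤ ‖u j‖ := by
    intro j
    refine (Complex.abs_re_le_norm _).trans ?_
    rw [norm_mul, norm_pow, hz, one_pow, mul_one]
  -- the tail
  have htail : |(- Real.log ‖PP r S z‖ - - Real.log ‖PP r S' z‖) -
      ∑ j ∈ range (K₂ + 1), (u j * z ^ j).re| ≤ B₃ := by
    have d1 := (hasSum_nat_add_iff' (K₂ + 1)).mpr hsum
    have d2 : HasSum (fun j : ℕ => 2 * n * r ^ (K₂ + 1) * r ^ j)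
        (2 * n * r ^ (K₂ + 1) * (1 - r)⁻¹) :=
      (hasSum_geometric_of_lt_one hr0.le hr1).mul_left _
    have d3 : ∀ j : ℕ, ‖(u (j + (K₂ + 1)) * z ^ (j + (K₂ + 1))).re‖ ≤
        2 * n * r ^ (K₂ + 1) * r ^ j := by
      intro j
      rw [Real.norm_eq_abs]
      refine (hre _).trans ((hnu _).trans (le_of_eq ?_))
      rw [pow_add]; ring
    have d4 := d1.norm_le_of_bounded d2 d3
    rw [Real.norm_eq_abs] at d4
    refine d4.trans (le_trans ?_ h3)
    rw [pow_succ, div_eq_mul_inv]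
    have e1 : 0 < (1 - r)⁻¹ := inv_pos.mpr (by linarith)
    have e2 : 0 < r ^ K₂ := by positivity
    have e3 : r ^ K₂ * r ≤ r ^ K₂ := mul_le_of_le_one_right e2.le hr1.le
    calc 2 * n * (r ^ K₂ * r) * (1 - r)⁻¹ ≤ 2 * n * r ^ K₂ * (1 - r)⁻¹ := by gcongr
      _ = _ := by ring
  -- splitting the finite part
  have hsplit : ∑ j ∈ range (K₂ + 1), (u j * z ^ j).re = ∑ j ∈ Icc 1 K₀, (u j * z ^ j).re +
      (∑ j ∈ Icc 1 K₁, (cb r K₀ S j - cb r K₀ S' j) * z ^ j).re +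
      (∑ j ∈ Icc 1 K₂, (cb r K₁ S j - cb r K₁ S' j) * z ^ j).re := by
    have f1 : ∑ j ∈ range (K₂ + 1), (u j * z ^ j).re = ∑ j ∈ Icc 1 K₂, (u j * z ^ j).re := by
      rw [range_eq_Ico, sum_eq_sum_Ico_succ_bot (by omega)]
      have g1 : (u 0 * z ^ 0).re = 0 := by simp [hu, xx]
      rw [g1, zero_add]
      apply sum_congr _ fun _ _ => rfl
      ext j; simp only [mem_Ico, mem_Icc]; omega
    have f2 : ∀ K L : ℕ, K ≤ L → (∑ j ∈ Icc 1 L, (cb r K S j - cb r K S' j) * z ^ j).re =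
        ∑ j ∈ Ioc K L, (u j * z ^ j).re := by
      intro K L hKL
      rw [Complex.re_sum]
      have g1 : Ioc K L ⊆ Icc 1 L := by
        intro j hj; rw [mem_Ioc] at hj; rw [mem_Icc]; omega
      rw [← sum_subset g1]
      · refine sum_congr rfl fun j hj => ?_
        rw [mem_Ioc] at hj
        rw [cb, cb, if_pos hj.1, if_pos hj.1]
      · intro j hj hj'
        rw [mem_Icc] at hj
        rw [mem_Ioc] at hj'
        rw [cb, cb, if_neg (by omega), if_neg (by omega)]; simp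
    have f3 : ∀ K L : ℕ, K ≤ L → ∑ j ∈ Icc 1 L, (u j * z ^ j).re =
        ∑ j ∈ Icc 1 K, (u j * z ^ j).re + ∑ j ∈ Ioc K L, (u j * z ^ j).re := by
      intro K L hKL
      rw [← sum_union]
      · apply sum_congr _ fun _ _ => rfl
        ext j; simp only [mem_union, mem_Icc, mem_Ioc]; omega
      · rw [disjoint_left]
        intro j hj hj'
        rw [mem_Icc] at hj; rw [mem_Ioc] at hj'; omega
    rw [f1, f2 K₀ K₁ h01, f2 K₁ K₂ h12, f3 K₁ K₂ h12, f3 K₀ K₁ h01]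
  have hlow : |∑ j ∈ Icc 1 K₀, (u j * z ^ j).re| ≤ B₀ :=
    (abs_sum_le_sum_abs _ _).trans ((sum_le_sum fun j _ => hre j).trans h0)
  rw [hsplit] at htail
  have hA := abs_le.mp htail
  have hB := abs_le.mp hlow
  have hC := abs_le.mp h1
  have hD := abs_le.mp h2
  have hfin : Real.log ‖PP r S z‖ ≤ (B₀ + B₁ + B₂ + B₃) + Real.log ‖PP r S' z‖ := by
    linarith [hA.1, hA.2, hB.1, hB.2, hC.1, hC.2, hD.1, hD.2]
  have p1 : 0 < ‖PP r S z‖ := norm_pos_iff.mpr a2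
  have p2 : 0 < ‖PP r S' z‖ := norm_pos_iff.mpr b2
  calc ‖PP r S z‖ = Real.exp (Real.log ‖PP r S z‖) := (Real.exp_log p1).symm
    _ ≤ Real.exp ((B₀ + B₁ + B₂ + B₃) + Real.log ‖PP r S' z‖) := Real.exp_le_exp.mpr hfin
    _ = _ := by rw [Real.exp_add, Real.exp_log p2]

end Pool.Agent.Helper79.LC
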