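import Pool.Agent.Helper72.OP.N
import Pool.Agent.Helper96.OP.L

/-! Roots of unity and lattice counting: `dparseval`, `norming`, `lattice_count`. -/
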