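import Pool.Agent.Helper79.LW.Cl
import Pool.Agent.Helper79.LW.En
import Pool.Agent.Helper79.LW.Roots

/-!
Labels and the number of label classes.
-/

open Finset

namespace Pool.Agent.Helper79.LC

/-- rounded samples -/
noncomputable def lab (N : ℕ) (Λ : ℝ) (K : ℕ) (c : ℕ → ℂ) : Fin N → ℤ := fun b =>
  round ((∑ j ∈ Icc 1 K, c j * zt N b ^ j).re / Λ)

lemma lab_sum {N K : ℕ} (hN : K < N) {Λ : ℝ} (hΛ : 0 < Λ) (c : ℕ → ℂ) :
    ∑ b, |(lab N Λ K c b : ℝ)| ≤ 4 * N * (∑ j ∈ Icc 1 K, ‖c j‖ ^ 2) / Λ ^ 2 := by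
  have h1 : ∀ b : Fin N, |(lab N Λ K c b : ℝ)| ≤
      4 / Λ ^ 2 * ‖∑ j ∈ Icc 1 K, c j * zt N b ^ j‖ ^ 2 := by
    intro b
    set w : ℂ := ∑ j ∈ Icc 1 K, c j * zt N b ^ j with hw
    have h2 := @round_dev 0 (w.re / Λ)
    have h3 : |((0 - round (w.re / Λ) : ℤ) : ℝ)| = |(lab N Λ K c b : ℝ)| := by
      rw [lab, ← hw, zero_sub, Int.cast_neg, abs_neg]
    rw [h3] at h2
    refine h2.trans ?_
    have h4 : w.re ^ 2 ≤ ‖w‖ ^ 2 := by
      rw [← sq_abs]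
      have := Complex.abs_re_le_norm w
      gcongr
    rw [Int.cast_zero, zero_sub, neg_sq, div_pow]
    calc 4 * (w.re ^ 2 / Λ ^ 2) ≤ 4 * (‖w‖ ^ 2 / Λ ^ 2) := by gcongr
      _ = _ := by ring
  calc ∑ b, |(lab N Λ K c b : ℝ)| ≤ ∑ b : Fin N, 4 / Λ ^ 2 * ‖∑ j ∈ Icc 1 K, c j * zt N b ^ j‖ ^ 2 :=
        sum_le_sum fun b _ => h1 b
    _ = 4 / Λ ^ 2 * ∑ b ∈ range N, ‖∑ j ∈ Icc 1 K, c j * zt N b ^ j‖ ^ 2 := by
        rw [← mul_sum, Finset.sum_range]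
    _ = _ := by rw [dparseval hN]; ring

lemma round_close {x y : ℝ} (h : round x = round y) : |x - y| ≤ 1 := by
  have h1 := abs_sub_round x
  have h2 := abs_sub_round y
  rw [h] at h1
  have h3 : x - y = (x - round y) - (y - round y) := by ring
  rw [h3]
  exact (abs_sub _ _).trans (by linarith)

lemma lab_close {N K : ℕ} (hK : 1 ≤ K) (hN : 3 * K ≤ N) {Λ : ℝ} (hΛ : 0 < Λ) {c c' : ℕ → ℂ}
    (h : lab N Λ K c = lab N Λ K c') {z : ℂ} (hz : ‖z‖ = 1) :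
    |(∑ j ∈ Icc 1 K, (c j - c' j) * z ^ j).re| ≤ 3 * Λ := by
  apply norming hK hN _ _ hz
  intro b hb
  have h1 := congrFun h ⟨b, hb⟩
  rw [lab, lab] at h1
  have h2 := round_close h1
  simp only [sub_mul, sum_sub_distrib, Complex.sub_re]
  rw [← sub_div, abs_div, abs_of_pos hΛ, div_le_one hΛ] at h2
  exact h2

lemma lab_card {ι : Type*} [DecidableEq ι] (F : Finset ι) (c : ι → ℕ → ℂ) {N K : ℕ} (hN : K < N)
    {Λ Q μ : ℝ} (hΛ : 0 < Λ) (hμ : 0 < μ)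
    (h : ∀ f ∈ F, 4 * N * (∑ j ∈ Icc 1 K, ‖c f j‖ ^ 2) / Λ ^ 2 ≤ Q) :
    (#(F.image fun f => lab N Λ K (c f)) : ℝ) ≤
      Real.exp (μ * Q) * ((1 + Real.exp (-μ)) / (1 - Real.exp (-μ))) ^ N := by
  apply lattice_count hμ
  intro m hm
  obtain ⟨f, hf, rfl⟩ := mem_image.mp hm
  exact (lab_sum hN hΛ _).trans (h f hf)

/-- rounded low coefficients -/
noncomputable def low (r : ℝ) (n K : ℕ) (S : Finset ℂ) : Fin K → ℤ × ℤ := fun j =>
  (round ((n : ℝ) * (xx r S (j + 1)).re), round ((n : ℝ) * (xx r S (j + 1)).im))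

lemma low_close {r : ℝ} {n K : ℕ} (hn : 1 ≤ n) {S S' : Finset ℂ}
    (h : low r n K S = low r n K S') :
    ∑ j ∈ Icc 1 K, ‖xx r S j - xx r S' j‖ ≤ 2 * K / n := by
  have hn0 : (0 : ℝ) < n := by exact_mod_cast hn
  have h1 : ∀ j ∈ Icc 1 K, ‖xx r S j - xx r S' j‖ ≤ 2 / n := by
    intro j hj
    rw [mem_Icc] at hj
    have h2 := congrFun h ⟨j - 1, by omega⟩
    simp only [low, Prod.mk.injEq] at h2
    rw [show j - 1 + 1 = j by omega] at h2
    have h3 := round_close h2.1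
    have h4 := round_close h2.2
    rw [← mul_sub, abs_mul, abs_of_pos hn0, ← Complex.sub_re] at h3
    rw [← mul_sub, abs_mul, abs_of_pos hn0, ← Complex.sub_im] at h4
    refine (Complex.norm_le_abs_re_add_abs_im _).trans ?_
    rw [le_div_iff₀ hn0]
    nlinarith
  calc ∑ j ∈ Icc 1 K, ‖xx r S j - xx r S' j‖ ≤ ∑ _j ∈ Icc 1 K, (2 : ℝ) / n := sum_le_sum h1
    _ = _ := by rw [sum_const, Nat.card_Icc, nsmul_eq_mul, Nat.add_sub_cancel]; ring

lemma round_mem {x : ℝ} {B : ℕ} (h : |x| ≤ B) : round x ∈ Icc (-(B : ℤ)) B := by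
  rw [abs_le] at h
  rw [mem_Icc, round_eq]
  constructor
  · rw [Int.le_floor]; push_cast; linarith [h.1]
  · have : ⌊x + 1 / 2⌋ < (B : ℤ) + 1 := by
      rw [Int.floor_lt]; push_cast; linarith [h.2]
    omega

lemma low_card {r : ℝ} (hr0 : 0 ≤ r) (hr1 : r ≤ 1) {n K : ℕ} {ι : Type*} [DecidableEq ι]
    (F : Finset ι) (S : ι → Finset ℂ) (hS : ∀ f ∈ F, #(S f) ≤ n) :
    (#(F.image fun f => low r n K (S f)) : ℝ) ≤ (2 * (n : ℝ) ^ 2 + 1) ^ (2 * K) := by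
  have h1 : F.image (fun f => low r n K (S f)) ⊆
      Fintype.piFinset fun _ : Fin K => Icc (-((n ^ 2 : ℕ) : ℤ)) ((n ^ 2 : ℕ) : ℤ) ×ˢ
        Icc (-((n ^ 2 : ℕ) : ℤ)) ((n ^ 2 : ℕ) : ℤ) := by
    intro m hm
    obtain ⟨f, hf, rfl⟩ := mem_image.mp hm
    rw [Fintype.mem_piFinset]
    intro j
    have h2 : ‖xx r (S f) (j + 1)‖ ≤ n := by
      refine (norm_xx_le hr0 _ _).trans ?_
      have h3 : (#(S f) : ℝ) ≤ n := by exact_mod_cast hS f hf
      have h4 : r ^ ((j : ℕ) + 1) ≤ 1 := pow_le_one₀ hr0 hr1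
      calc r ^ ((j : ℕ) + 1) * (#(S f) : ℝ) ≤ 1 * n := by gcongr
        _ = n := one_mul _
    have hn0 : (0 : ℝ) ≤ n := by positivity
    rw [mem_product]
    constructor
    · apply round_mem
      rw [abs_mul, abs_of_nonneg hn0]
      push_cast
      have := (Complex.abs_re_le_norm (xx r (S f) (j + 1))).trans h2
      nlinarith
    · apply round_mem
      rw [abs_mul, abs_of_nonneg hn0]
      push_cast
      have := (Complex.abs_im_le_norm (xx r (S f) (j + 1))).trans h2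
      nlinarith
  have h2 := card_le_card h1
  rw [Fintype.card_piFinset, prod_const, card_univ, Fintype.card_fin, card_product, Int.card_Icc]
    at h2
  have h3 : (((n ^ 2 : ℕ) : ℤ) + 1 - -((n ^ 2 : ℕ) : ℤ)).toNat = 2 * n ^ 2 + 1 := by
    omega
  rw [h3] at h2
  calc (#(F.image fun f => low r n K (S f)) : ℝ) ≤
        ((((2 * n ^ 2 + 1) * (2 * n ^ 2 + 1)) ^ K : ℕ) : ℝ) := by exact_mod_cast h2
    _ = _ := by push_cast; rw [pow_mul]; ring

lemma blk_le {r : ℝ} (hr0 : 0 ≤ r) (hr1 : r ≤ 1) (S : Finset ℂ) {K K' : ℕ} (hK : 1 ≤ K) :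
    ∑ j ∈ Icc 1 K', ‖cb r K S j‖ ^ 2 ≤ AA S.val K' / K := by
  have hK0 : (0 : ℝ) < K := by exact_mod_cast hK
  rw [AA, sum_div]
  calc ∑ j ∈ Icc 1 K', ‖cb r K S j‖ ^ 2 ≤ ∑ j ∈ Icc 1 K', wn S.val j ^ 2 / j / K := by
        refine sum_le_sum fun j hj => ?_
        rw [mem_Icc] at hj
        have hj0 : (0 : ℝ) < j := by exact_mod_cast hj.1
        rw [cb]
        split_ifs with h
        · rw [norm_xx hr0, wn_eq, mul_pow, div_pow]
          have h1 : (r ^ j) ^ 2 ≤ 1 := pow_le_one₀ (by positivity) (pow_le_one₀ hr0 hr1)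
          have h2 : (K : ℝ) ≤ j := by exact_mod_cast h.le
          calc (r ^ j) ^ 2 / (j : ℝ) ^ 2 * ‖ww S.val j‖ ^ 2 ≤ 1 / (j * K) * ‖ww S.val j‖ ^ 2 := by
                gcongr
                rw [pow_two]; gcongr
            _ = _ := by field_simp
        · rw [norm_zero, zero_pow (by norm_num)]
          positivity
    _ ≤ _ := by
        apply sum_le_sum_of_subset_of_nonneg
        · intro j hj
          rw [mem_Icc] at hj
          rw [mem_range]; omega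
        · intro j _ _; positivity

/-- The number of separable polynomials with given degree and leading coefficient. -/
theorem sep_bound {n K₀ K₁ K₂ : ℕ} {ℓ : ℤ} {T r Λ μ θ A B₃ : ℝ} (hn : 1 ≤ n) (hr0 : 0 < r)
    (hr1 : r < 1) (hΛ : 0 < Λ) (hμ : 0 < μ) (hθ0 : 0 < θ) (hθ1 : θ < 1)
    (hK0 : 1 ≤ K₀) (h01 : K₀ ≤ K₁) (h12 : K₁ ≤ K₂)
    (F : Finset (Polynomial ℤ)) (hF : ∀ f ∈ F, Sq f ∧ f.natDegree = n ∧ f.leadingCoeff = ℓ ∧
      MM f ≤ T ∧ AA (rt f).val K₂ ≤ A)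
    (h3 : 2 * n * (r ^ K₂ / (1 - r)) ≤ B₃) :
    (#F : ℝ) ≤ (2 * (n : ℝ) ^ 2 + 1) ^ (2 * K₀) *
      (Real.exp (μ * (4 * (3 * K₁) * (A / K₀) / Λ ^ 2)) *
        ((1 + Real.exp (-μ)) / (1 - Real.exp (-μ))) ^ (3 * K₁)) *
      (Real.exp (μ * (4 * (3 * K₂) * (A / K₁) / Λ ^ 2)) *
        ((1 + Real.exp (-μ)) / (1 - Real.exp (-μ))) ^ (3 * K₂)) *
      Real.exp (n * Real.log ((1 + θ) / (1 - θ)) + -Real.log θ *
        (4 * (T ^ 2 * ((r ^ (2 * n))⁻¹ *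
          Real.exp (2 * K₀ / n + 3 * Λ + 3 * Λ + B₃) ^ 2)))) := by
  classical
  set φ0 : Polynomial ℤ → (Fin K₀ → ℤ × ℤ) := fun f => low r n K₀ (rt f) with hφ0
  set φ1 : Polynomial ℤ → (Fin (3 * K₁) → ℤ) := fun f => lab (3 * K₁) Λ K₁ (cb r K₀ (rt f))
    with hφ1
  set φ2 : Polynomial ℤ → (Fin (3 * K₂) → ℤ) := fun f => lab (3 * K₂) Λ K₂ (cb r K₁ (rt f))
    with hφ2
  set E : ℝ := Real.exp (n * Real.log ((1 + θ) / (1 - θ)) + -Real.log θ *
        (4 * (T ^ 2 * ((r ^ (2 * n))⁻¹ *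
          Real.exp (2 * K₀ / n + 3 * Λ + 3 * Λ + B₃) ^ 2)))) with hE
  have hE0 : 0 < E := Real.exp_pos _
  have hfib : ∀ y ∈ F.image (fun f => (φ0 f, φ1 f, φ2 f)),
      #(F.filter fun f => (φ0 f, φ1 f, φ2 f) = y) ≤ ⌊E⌋₊ := by
    intro y _
    apply Nat.le_floor
    apply class_ratio (n := n) (ℓ := ℓ) hr0 hr1 hθ0 hθ1
    · intro f hf
      obtain ⟨e1, e2, e3, e4, _⟩ := hF f (mem_filter.mp hf).1
      exact ⟨e1, e2, e3, e4⟩
    · intro f hf g hg t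
      obtain ⟨hf1, hf2⟩ := mem_filter.mp hf
      obtain ⟨hg1, hg2⟩ := mem_filter.mp hg
      have e0 : φ0 f = φ0 g := by
        have := hf2.trans hg2.symm
        exact congrArg Prod.fst this
      have e1 : φ1 f = φ1 g := by
        have := hf2.trans hg2.symm
        exact congrArg (fun x => x.2.1) this
      have e2 : φ2 f = φ2 g := by
        have := hf2.trans hg2.symm
        exact congrArg (fun x => x.2.2) this
      obtain ⟨f1, f2, _⟩ := hF f hf1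
      obtain ⟨g1, g2, _⟩ := hF g hg1
      rw [PP_eq, PP_eq]
      apply PP_close hr0 hr1 (n := n) (K₀ := K₀) (K₁ := K₁) (K₂ := K₂)
      · rw [f1.card_rt, f2]
      · rw [g1.card_rt, g2]
      · exact h01
      · exact h12
      · exact low_close hn e0
      · exact norm_cz t
      · exact lab_close (by omega) le_rfl hΛ e1 (norm_cz t)
      · exact lab_close (by omega) le_rfl hΛ e2 (norm_cz t)
      · exact h3
  have hcard := card_le_mul_card_image F ⌊E⌋₊ hfib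
  have him : F.image (fun f => (φ0 f, φ1 f, φ2 f)) ⊆
      F.image φ0 ×ˢ (F.image φ1 ×ˢ F.image φ2) := by
    intro y hy
    obtain ⟨f, hf, rfl⟩ := mem_image.mp hy
    rw [mem_product, mem_product]
    exact ⟨mem_image_of_mem _ hf, mem_image_of_mem _ hf, mem_image_of_mem _ hf⟩
  have him2 : #(F.image (fun f => (φ0 f, φ1 f, φ2 f))) ≤
      #(F.image φ0) * (#(F.image φ1) * #(F.image φ2)) := by
    refine (card_le_card him).trans ?_
    rw [card_product, card_product]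
  have hK00 : (0 : ℝ) < K₀ := by exact_mod_cast hK0
  have hK11 : (0 : ℝ) < K₁ := by exact_mod_cast hK0.trans h01
  have hAm : ∀ f ∈ F, ∀ K ≤ K₂, AA (rt f).val K ≤ A := by
    intro f hf K hK
    obtain ⟨_, _, _, _, e5⟩ := hF f hf
    exact (AA_mono _ hK).trans e5
  have c0 : (#(F.image φ0) : ℝ) ≤ (2 * (n : ℝ) ^ 2 + 1) ^ (2 * K₀) := by
    apply low_card hr0.le hr1.le
    intro f hf
    obtain ⟨e1, e2, _⟩ := hF f hf
    rw [e1.card_rt, e2]
  have c1 : (#(F.image φ1) : ℝ) ≤ Real.exp (μ * (4 * (3 * K₁) * (A / K₀) / Λ ^ 2)) *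
        ((1 + Real.exp (-μ)) / (1 - Real.exp (-μ))) ^ (3 * K₁) := by
    apply lab_card F (fun f => cb r K₀ (rt f)) (by omega) hΛ hμ
    intro f hf
    have e1 := blk_le hr0.le hr1.le (rt f) (K := K₀) (K' := K₁) hK0
    have e2 := hAm f hf K₁ h12
    push_cast
    gcongr
    refine e1.trans ?_
    gcongr
  have c2 : (#(F.image φ2) : ℝ) ≤ Real.exp (μ * (4 * (3 * K₂) * (A / K₁) / Λ ^ 2)) *
        ((1 + Real.exp (-μ)) / (1 - Real.exp (-μ))) ^ (3 * K₂) := by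
    apply lab_card F (fun f => cb r K₁ (rt f)) (by omega) hΛ hμ
    intro f hf
    have e1 := blk_le hr0.le hr1.le (rt f) (K := K₁) (K' := K₂) (by omega)
    have e2 := hAm f hf K₂ le_rfl
    push_cast
    gcongr
    refine e1.trans ?_
    gcongr
  have hfl : (⌊E⌋₊ : ℝ) ≤ E := Nat.floor_le hE0.le
  have n0 := (Nat.cast_nonneg (α := ℝ) #(F.image φ0)).trans c0
  have n1 := (Nat.cast_nonneg (α := ℝ) #(F.image φ1)).trans c1
  have n2 := (Nat.cast_nonneg (α := ℝ) #(F.image φ2)).trans c2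
  calc (#F : ℝ) ≤ ((⌊E⌋₊ * #(F.image (fun f => (φ0 f, φ1 f, φ2 f))) : ℕ) : ℝ) := by
        exact_mod_cast hcard
    _ ≤ ((⌊E⌋₊ * (#(F.image φ0) * (#(F.image φ1) * #(F.image φ2))) : ℕ) : ℝ) := by
        exact_mod_cast Nat.mul_le_mul_left _ him2
    _ = (⌊E⌋₊ : ℝ) * (#(F.image φ0) * (#(F.image φ1) * #(F.image φ2))) := by push_cast; ring
    _ ≤ E * ((2 * (n : ℝ) ^ 2 + 1) ^ (2 * K₀) *
        ((Real.exp (μ * (4 * (3 * K₁) * (A / K₀) / Λ ^ 2)) *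
        ((1 + Real.exp (-μ)) / (1 - Real.exp (-μ))) ^ (3 * K₁)) *
        (Real.exp (μ * (4 * (3 * K₂) * (A / K₁) / Λ ^ 2)) *
        ((1 + Real.exp (-μ)) / (1 - Real.exp (-μ))) ^ (3 * K₂)))) := by gcongr
    _ = _ := by ring

end Pool.Agent.Helper79.LC
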