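import Pool.Agent.Helper79.LH.Mul

/-!
Many integer polynomials of Mahler measure at most `√(n + 1)`.
-/

open Finset

namespace Pool.Agent.Helper79.LC

lemma MM_sumX (n : ℕ) {S : Finset ℕ} (hS : S ⊆ range (n + 1)) :
    (∑ i ∈ S, (Polynomial.X : Polynomial ℤ) ^ i).natDegree ≤ n ∧
      MM (∑ i ∈ S, (Polynomial.X : Polynomial ℤ) ^ i) ≤ √((n : ℝ) + 1) := by
  set f : Polynomial ℤ := ∑ i ∈ S, (Polynomial.X : Polynomial ℤ) ^ i with hf
  have hdeg : f.natDegree ≤ n := by
    rw [Polynomial.natDegree_le_iff_coeff_eq_zero]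
    intro k hk
    rw [hf, coeff_sumX, if_neg]
    intro h
    have := mem_range.mp (hS h)
    omega
  refine ⟨hdeg, ?_⟩
  rw [MM]
  refine (Polynomial.mahlerMeasure_le_sqrt_natDegree_add_one_mul_supNorm _).trans ?_
  rw [mapC_deg]
  have h1 : (f.map (Int.castRingHom ℂ)).supNorm ≤ 1 := by
    obtain ⟨i, hi⟩ := Polynomial.exists_eq_supNorm (f.map (Int.castRingHom ℂ))
    rw [hi, Polynomial.coeff_map, hf, coeff_sumX]
    split_ifs <;> simp
  have h2 : (f.natDegree : ℝ) ≤ n := by exact_mod_cast hdeg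
  calc √((f.natDegree : ℝ) + 1) * (f.map (Int.castRingHom ℂ)).supNorm
      ≤ √((f.natDegree : ℝ) + 1) * 1 := by gcongr
    _ ≤ √((n : ℝ) + 1) := by rw [mul_one]; exact Real.sqrt_le_sqrt (by linarith)

theorem two_pow_le (n : ℕ) : 2 ^ (n + 1) ≤ (famT n √((n : ℝ) + 1)).ncard := by
  classical
  have h1 : #((range (n + 1)).powerset.image fun S => ∑ i ∈ S, (Polynomial.X : Polynomial ℤ) ^ i) =
      2 ^ (n + 1) := by
    rw [card_image_of_injOn, card_powerset, card_range]
    intro S _ S' _ h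
    ext k
    have h2 := congrArg (fun f : Polynomial ℤ => f.coeff k) h
    simp only [coeff_sumX] at h2
    by_cases h3 : k ∈ S <;> by_cases h4 : k ∈ S' <;> simp_all
  rw [← h1, ← Set.ncard_coe_finset]
  apply Set.ncard_le_ncard _ (finite_famT n (Real.sqrt_nonneg _))
  intro f hf
  rw [mem_coe, mem_image] at hf
  obtain ⟨S, hS, rfl⟩ := hf
  rw [mem_powerset] at hS
  exact MM_sumX n hS

end Pool.Agent.Helper79.LC
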