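import Pool.Agent.Helper79.LW.Asy

/-!
The number of separable polynomials of degree `n` with Mahler measure at most `n ^ (1 / 2 - δ)` is
subexponential.
-/

open Finset Filter Topology Asymptotics

namespace Pool.Agent.Helper79.LC

/-- the fourth root of the logarithm -/
noncomputable def yy (n : ℕ) : ℝ := √√(Real.log n)

lemma yy_pow {n : ℕ} (hn : 1 ≤ n) : yy n ^ 4 = Real.log n := by
  have h1 : 0 ≤ Real.log (n : ℝ) := Real.log_nonneg (by exact_mod_cast hn)
  rw [yy, show √√(Real.log (n : ℝ)) ^ 4 = (√√(Real.log (n : ℝ)) ^ 2) ^ 2 by ring,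
    Real.sq_sqrt (Real.sqrt_nonneg _), Real.sq_sqrt h1]

lemma tend_yy : Tendsto yy atTop atTop :=
  Real.tendsto_sqrt_atTop.comp (Real.tendsto_sqrt_atTop.comp tend_log)

lemma tend_log_div : Tendsto (fun x : ℝ => Real.log x / x) atTop (𝓝 0) :=
  Real.isLittleO_log_id_atTop.tendsto_div_nhds_zero

lemma tend_log_rpow {c : ℝ} (hc : 0 < c) :
    Tendsto (fun n : ℕ => Real.log n * (n : ℝ) ^ (-c)) atTop (𝓝 0) := by
  have h1 := (isLittleO_log_rpow_atTop hc).tendsto_div_nhds_zero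
  refine (h1.comp tendsto_natCast_atTop_atTop).congr' ?_
  filter_upwards [eventually_ge_atTop 1] with n hn
  have hn0 : (0 : ℝ) ≤ n := by positivity
  simp only [Function.comp]
  rw [Real.rpow_neg hn0, div_eq_mul_inv]

lemma expo_div (δ : ℝ) (hδ : 0 < δ) :
    Tendsto (fun n : ℕ => (Real.log (2 * n + 1) + expo n δ (yy n)) / n) atTop (𝓝 0) := by
  have hy := tend_yy
  have hn : Tendsto (fun n : ℕ => (n : ℝ)) atTop atTop := tendsto_natCast_atTop_atTop
  have t1 : Tendsto (fun n : ℕ => Real.log n / (n : ℝ)) atTop (𝓝 0) := tend_log_div.comp hn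
  have t2 : Tendsto (fun n : ℕ => Real.log (yy n) / yy n) atTop (𝓝 0) := tend_log_div.comp hy
  have t3 : Tendsto (fun n : ℕ => (yy n)⁻¹) atTop (𝓝 0) := hy.inv_tendsto_atTop
  have t4 := tend_log_rpow (show 0 < 9 * δ / 8 by positivity)
  have t5 : Tendsto (fun n : ℕ => ((n : ℝ))⁻¹) atTop (𝓝 0) := hn.inv_tendsto_atTop
  have hlim : Tendsto (fun n : ℕ => 2 * (Real.log n / (n : ℝ)) + (6 * (yy n)⁻¹ +
      (245760 / δ ^ 2 * (Real.log (yy n) / yy n) + 9 * (yy n)⁻¹ ^ 3) +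
      (6144000 / δ ^ 3 * (Real.log (yy n) / yy n * (yy n)⁻¹) + 225 / δ * (yy n)⁻¹) +
      (3 * ((n : ℝ))⁻¹ + 8 * Real.exp 4 * (Real.log n * (n : ℝ) ^ (-(9 * δ / 8)))))) atTop
      (𝓝 (2 * 0 + (6 * 0 + (245760 / δ ^ 2 * 0 + 9 * 0 ^ 3) +
      (6144000 / δ ^ 3 * (0 * 0) + 225 / δ * 0) + (3 * 0 + 8 * Real.exp 4 * 0)))) :=
    (t1.const_mul _).add ((((t3.const_mul _).add ((t2.const_mul _).add
      ((t3.pow 3).const_mul _))).add (((t2.mul t3).const_mul _).add (t3.const_mul _))).add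
      ((t5.const_mul _).add (t4.const_mul _)))
  have h0 : (2 * 0 + (6 * 0 + (245760 / δ ^ 2 * 0 + 9 * 0 ^ 3) +
      (6144000 / δ ^ 3 * (0 * 0) + 225 / δ * 0) + (3 * 0 + 8 * Real.exp 4 * 0)) : ℝ) = 0 := by
    ring
  rw [h0] at hlim
  refine squeeze_zero' ?_ ?_ hlim
  · filter_upwards [eventually_ge_atTop 3, hy.eventually (eventually_ge_atTop 2)] with n hn3 hy2
    have hn0 : (0 : ℝ) < n := by positivity
    have h1 : 0 ≤ Real.log (2 * (n : ℝ) + 1) := Real.log_nonneg (by linarith)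
    have h2 : 0 ≤ Real.log ((n : ℝ) + 1) := Real.log_nonneg (by linarith)
    have h3 : 0 ≤ Real.log (yy n) := Real.log_nonneg (by linarith)
    have h4 : 0 < yy n := by linarith
    rw [expo]
    positivity
  · filter_upwards [eventually_ge_atTop 3, hy.eventually (eventually_ge_atTop 2)] with n hn3 hy2
    have hn0 : (0 : ℝ) < n := by positivity
    have hn3' : (3 : ℝ) ≤ n := by exact_mod_cast hn3
    have hy0 : 0 < yy n := by linarith
    have h1 : Real.log (2 * (n : ℝ) + 1) ≤ 2 * Real.log n := by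
      have : Real.log (2 * (n : ℝ) + 1) ≤ Real.log ((n : ℝ) ^ 2) :=
        Real.log_le_log (by positivity) (by nlinarith)
      rwa [Real.log_pow] at this
    have h2 : Real.log ((n : ℝ) + 1) ≤ 2 * Real.log n := by
      have : Real.log ((n : ℝ) + 1) ≤ Real.log ((n : ℝ) ^ 2) :=
        Real.log_le_log (by positivity) (by nlinarith)
      rwa [Real.log_pow] at this
    have h3 : (n : ℝ) ^ (1 - 9 * δ / 8) = n * (n : ℝ) ^ (-(9 * δ / 8)) := by
      rw [show 1 - 9 * δ / 8 = 1 + -(9 * δ / 8) by ring, Real.rpow_add hn0, Real.rpow_one]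
    rw [div_le_iff₀ hn0, expo, h3]
    have h4 : 0 < (n : ℝ) ^ (-(9 * δ / 8)) := Real.rpow_pos_of_pos hn0 _
    calc Real.log (2 * n + 1) + (6 * n / yy n + (245760 / δ ^ 2 * n * Real.log (yy n) / yy n +
          9 * n / yy n ^ 3) + (6144000 / δ ^ 3 * n * Real.log (yy n) / yy n ^ 2 +
          225 * n / (δ * yy n)) + (3 + 4 * Real.log (n + 1) * (Real.exp 4 *
          (n * (n : ℝ) ^ (-(9 * δ / 8))))))
        ≤ 2 * Real.log n + (6 * n / yy n + (245760 / δ ^ 2 * n * Real.log (yy n) / yy n +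
          9 * n / yy n ^ 3) + (6144000 / δ ^ 3 * n * Real.log (yy n) / yy n ^ 2 +
          225 * n / (δ * yy n)) + (3 + 4 * (2 * Real.log n) * (Real.exp 4 *
          (n * (n : ℝ) ^ (-(9 * δ / 8)))))) := by gcongr
      _ = _ := by field_simp; ring

theorem Wq_small {δ : ℝ} (hδ : 0 < δ) (hδ4 : δ ≤ 1 / 4) {ε : ℝ} (hε : 0 < ε) :
    ∀ᶠ n : ℕ in atTop, ((famQ n ((n : ℝ) ^ (1 / 2 - δ))).ncard : ℝ) ≤ Real.exp (ε * n) := by
  classical
  have hy := tend_yy
  have hn : Tendsto (fun n : ℕ => (n : ℝ)) atTop atTop := tendsto_natCast_atTop_atTop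
  have t1 : Tendsto (fun n : ℕ => Real.log n / (n : ℝ)) atTop (𝓝 0) := tend_log_div.comp hn
  have t2 : Tendsto (fun n : ℕ => Real.log n ^ 2 / (n : ℝ)) atTop (𝓝 0) := by
    have h1 : Tendsto (fun x : ℝ => Real.log x ^ 2 / x) atTop (𝓝 0) := by
      have := (Real.isLittleO_pow_log_id_atTop (n := 2)).tendsto_div_nhds_zero
      exact this
    exact h1.comp hn
  filter_upwards [eventually_ge_atTop 3, hy.eventually (eventually_ge_atTop 2),
    (expo_div δ hδ).eventually (ge_mem_nhds hε),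
    t1.eventually (ge_mem_nhds (show (0 : ℝ) < 4 / δ by positivity)),
    t2.eventually (ge_mem_nhds (show (0 : ℝ) < 1 / 2 by norm_num)),
    hn.eventually (eventually_ge_atTop (25 / δ)),
    hn.eventually (eventually_ge_atTop (16 / δ))] with n hn3 hy2 hexp hs hK hlK htl
  have hn0 : (0 : ℝ) < n := by positivity
  have hn3' : (3 : ℝ) ≤ n := by exact_mod_cast hn3
  have hyp := yy_pow (show 1 ≤ n by omega)
  have hL1 : 1 ≤ Real.log n := by
    rw [← hyp]; exact one_le_pow₀ (by linarith)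
  set T : ℝ := (n : ℝ) ^ (1 / 2 - δ) with hT
  have hT0 : 0 ≤ T := by positivity
  have hTn : T ≤ n := by
    calc T ≤ (n : ℝ) ^ (1 : ℝ) := Real.rpow_le_rpow_of_exponent_le (by linarith) (by linarith)
      _ = n := Real.rpow_one _
  set F : Finset (Polynomial ℤ) := (finite_famQ n hT0).toFinset with hF
  have hc : (famQ n T).ncard = #F := Set.ncard_eq_toFinset_card _ (finite_famQ n hT0)
  rw [hc]
  have hFmem : ∀ f ∈ F, Sq f ∧ f.natDegree = n ∧ MM f ≤ T := by
    intro f hf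
    rw [hF, Set.Finite.mem_toFinset] at hf
    exact hf
  have h1 : F ⊆ (Icc (-(n : ℤ)) n).biUnion fun ℓ => F.filter fun f => f.leadingCoeff = ℓ := by
    intro f hf
    rw [mem_biUnion]
    refine ⟨f.leadingCoeff, ?_, mem_filter.mpr ⟨hf, rfl⟩⟩
    obtain ⟨_, _, e3⟩ := hFmem f hf
    have h2 : |(f.leadingCoeff : ℝ)| ≤ n := ((lc_le_MM f).trans e3).trans hTn
    have h3 : |f.leadingCoeff| ≤ (n : ℤ) := by exact_mod_cast h2
    rw [mem_Icc]
    exact abs_le.mp h3
  have h2 : ∀ ℓ ∈ Icc (-(n : ℤ)) n, (#(F.filter fun f => f.leadingCoeff = ℓ) : ℝ) ≤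
      Real.exp (expo n δ (yy n)) := by
    intro ℓ _
    apply core (ℓ := ℓ) hn3 hδ hδ4 hy2 hyp
    · rw [div_le_iff₀ hn0] at hs
      have : δ * Real.log n ≤ δ * (4 / δ * n) := by gcongr
      have h3 : δ * (4 / δ * n) = 4 * n := by field_simp
      linarith
    · rw [le_div_iff₀ (by positivity)]
      have h4 : yy n ^ 5 ≤ Real.log n ^ 2 := by
        rw [← hyp, ← pow_mul]
        exact pow_le_pow_right₀ (by linarith) (by norm_num)
      rw [div_le_iff₀ hn0] at hK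
      linarith
    · exact hlK
    · have : 16 ≤ δ * n := by
        have := mul_le_mul_of_nonneg_left htl hδ.le
        rwa [mul_div_cancel₀ _ hδ.ne'] at this
      nlinarith [mul_nonneg (mul_nonneg hδ.le hn0.le) (sub_nonneg.mpr hL1)]
    · intro f hf
      obtain ⟨g1, g2⟩ := mem_filter.mp hf
      obtain ⟨e1, e2, e3⟩ := hFmem f g1
      exact ⟨e1, e2, g2, e3⟩
  have h3 : (#F : ℝ) ≤ ∑ ℓ ∈ Icc (-(n : ℤ)) n, (#(F.filter fun f => f.leadingCoeff = ℓ) : ℝ) := by
    exact_mod_cast (card_le_card h1).trans card_biUnion_le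
  calc (#F : ℝ) ≤ ∑ ℓ ∈ Icc (-(n : ℤ)) n, (#(F.filter fun f => f.leadingCoeff = ℓ) : ℝ) := h3
    _ ≤ ∑ _ℓ ∈ Icc (-(n : ℤ)) n, Real.exp (expo n δ (yy n)) := sum_le_sum h2
    _ = (2 * n + 1) * Real.exp (expo n δ (yy n)) := by
        rw [sum_const, Int.card_Icc, nsmul_eq_mul]
        congr 1
        have : ((n : ℤ) + 1 - -(n : ℤ)).toNat = 2 * n + 1 := by omega
        rw [this]; push_cast; ring
    _ = Real.exp (Real.log (2 * n + 1) + expo n δ (yy n)) := by
        rw [Real.exp_add, Real.exp_log (by positivity)]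
    _ ≤ _ := by
        apply Real.exp_le_exp.mpr
        rwa [div_le_iff₀ hn0] at hexp

/-- The number of separable integer polynomials of degree `n` with Mahler measure at most
`n ^ (1 / 2 - δ)` is subexponential. -/
theorem Wq (δ : ℝ) (hδ : 0 < δ) (ε : ℝ) (hε : 0 < ε) :
    ∀ᶠ n : ℕ in atTop, ((famQ n ((n : ℝ) ^ (1 / 2 - δ))).ncard : ℝ) ≤ Real.exp (ε * n) := by
  filter_upwards [Wq_small (δ := min δ (1 / 4)) (lt_min hδ (by norm_num)) (min_le_right _ _) hε,
    eventually_ge_atTop 1] with n hn hn1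
  refine le_trans ?_ hn
  have hn1' : (1 : ℝ) ≤ n := by exact_mod_cast hn1
  have h1 : (n : ℝ) ^ (1 / 2 - δ) ≤ (n : ℝ) ^ (1 / 2 - min δ (1 / 4)) :=
    Real.rpow_le_rpow_of_exponent_le hn1' (by linarith [min_le_left δ (1 / 4)])
  have h2 : famQ n ((n : ℝ) ^ (1 / 2 - δ)) ⊆ famQ n ((n : ℝ) ^ (1 / 2 - min δ (1 / 4))) := by
    rintro f ⟨a, b, c⟩
    exact ⟨a, b, c.trans h1⟩
  exact_mod_cast Set.ncard_le_ncard h2 (finite_famQ n (by positivity))

end Pool.Agent.Helper79.LC
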